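import Pool.Agent.L7h79.GR.Stm
import Pool.Agent.N333.GR.Wt

/-!
# The weight sums of the gcd recursion with the weight gcd / d
-/

set_option autoImplicit false

namespace Pool.Agent.L7h32.GR

open Finset Pool.Agent.N333.GR

/-- the gcd is at most the sum of the common divisors -/
lemma gcd_le {K : ℕ} (hK : 1 ≤ K) (d : ℕ) :
    ((Nat.gcd K d : ℕ) : ℝ) ≤ ∑ E ∈ K.divisors.filter (fun E => E ∣ d), (E : ℝ) := by
  refine single_le_sum (f := fun E : ℕ => (E : ℝ)) (fun i _ => by positivity) ?_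
  rw [mem_filter, Nat.mem_divisors]
  exact ⟨⟨Nat.gcd_dvd_left K d, by omega⟩, Nat.gcd_dvd_right K d⟩

lemma sum_gcd {K : ℕ} (hK : 1 ≤ K) (S : Finset ℕ) (w : ℕ → ℝ) (hw : ∀ d, 0 ≤ w d) :
    ∑ d ∈ S, ((Nat.gcd K d : ℕ) : ℝ) * w d ≤
      ∑ E ∈ K.divisors, ∑ d ∈ S.filter (fun d => E ∣ d), (E : ℝ) * w d := by
  calc ∑ d ∈ S, ((Nat.gcd K d : ℕ) : ℝ) * w d ≤
      ∑ d ∈ S, ∑ E ∈ K.divisors, if E ∣ d then (E : ℝ) * w d else 0 := by
        refine sum_le_sum fun d _ => ?_
        rw [← sum_filter, ← sum_mul]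
        exact mul_le_mul_of_nonneg_right (gcd_le hK d) (hw d)
    _ = _ := by
        rw [sum_comm]
        refine sum_congr rfl fun E _ => ?_
        rw [sum_filter]

/-- the harmonic sum over the multiples -/
lemma harmE (D Ts E : ℕ) (hE : 1 ≤ E) (hD : 1 ≤ D) :
    ∑ d ∈ (Icc D Ts).filter (fun d => E ∣ d), (E : ℝ) * (1 / (d : ℝ)) ≤
      1 + Real.log Ts := by
  refine le_trans ?_ (Wt.harm Ts)
  have h1 : ∑ d ∈ (Icc D Ts).filter (fun d => E ∣ d), (E : ℝ) * (1 / (d : ℝ)) =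
      ∑ x ∈ ((Icc D Ts).filter (fun d => E ∣ d)).image (fun d => d / E), (1 / (x : ℝ)) := by
    rw [sum_image]
    · refine sum_congr rfl fun d hd => ?_
      rw [mem_filter, mem_Icc] at hd
      obtain ⟨⟨h1, _⟩, u, rfl⟩ := hd
      have hu : 0 < u := by
        rcases Nat.eq_zero_or_pos u with h | h
        · subst h; simp at h1; omega
        · exact h
      rw [Nat.mul_div_cancel_left _ (by omega)]
      have hE' : (E : ℝ) ≠ 0 := by
        have : (0 : ℝ) < E := by exact_mod_cast hE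
        exact this.ne'
      have hu' : (u : ℝ) ≠ 0 := by
        have : (0 : ℝ) < u := by exact_mod_cast hu
        exact this.ne'
      push_cast
      field_simp
    · intro s hs t ht hst
      simp only [coe_filter, Set.mem_ofPred_eq, mem_Icc] at hs ht
      obtain ⟨u, rfl⟩ := hs.2
      obtain ⟨v, rfl⟩ := ht.2
      simp only [Nat.mul_div_cancel_left _ (show 0 < E by omega)] at hst
      rw [hst]
  rw [h1]
  refine sum_le_sum_of_subset_of_nonneg ?_ (fun i _ _ => by positivity)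
  intro x hx
  rw [mem_image] at hx
  obtain ⟨d, hd, rfl⟩ := hx
  rw [mem_filter, mem_Icc] at hd
  obtain ⟨⟨h1, h2⟩, u, rfl⟩ := hd
  rw [Nat.mul_div_cancel_left _ (show 0 < E by omega), mem_Icc]
  constructor
  · rcases Nat.eq_zero_or_pos u with h | h
    · subst h; simp at h1; omega
    · exact h
  · exact (Nat.le_mul_of_pos_left u (by omega)).trans h2

/-- **WA'** -/
theorem wa' : Pool.Agent.L7h79.GR.S_WA' := by
  intro D Ts G t' K hD hG hK
  have h1 : ∀ d ∈ Icc D Ts,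
      ∑ _t ∈ (Icc 1 Ts).filter (fun t => d ∣ t ∧ t' ≤ t ∧ t ≤ t' + 2 * G * d),
        ((Nat.gcd K d : ℕ) : ℝ) / (d : ℝ) ≤
        ((Nat.gcd K d : ℕ) : ℝ) * (3 * G * (1 / (d : ℝ))) := by
    intro d hd
    rw [mem_Icc] at hd
    rw [sum_const, nsmul_eq_mul]
    have hc := Wt.cardWA Ts G t' d (by omega)
    have hc' : (((Icc 1 Ts).filter (fun t => d ∣ t ∧ t' ≤ t ∧ t ≤ t' + 2 * G * d)).card : ℝ) ≤
        3 * G := by
      have : ((Icc 1 Ts).filter (fun t => d ∣ t ∧ t' ≤ t ∧ t ≤ t' + 2 * G * d)).card ≤ 3 * G := by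
        omega
      exact_mod_cast this
    refine (mul_le_mul_of_nonneg_right hc' (by positivity)).trans (le_of_eq ?_)
    ring
  refine (sum_le_sum h1).trans ?_
  refine (sum_gcd hK (Icc D Ts) (fun d => 3 * G * (1 / (d : ℝ)))
    (fun d => by positivity)).trans ?_
  have h2 : ∀ E ∈ K.divisors, ∑ d ∈ (Icc D Ts).filter (fun d => E ∣ d),
      (E : ℝ) * (3 * G * (1 / (d : ℝ))) ≤ 3 * G * (1 + Real.log Ts) := by
    intro E hE
    have hE1 : 1 ≤ E := Nat.pos_of_mem_divisors hE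
    have h3 := harmE D Ts E hE1 hD
    calc ∑ d ∈ (Icc D Ts).filter (fun d => E ∣ d), (E : ℝ) * (3 * G * (1 / (d : ℝ)))
        = 3 * G * ∑ d ∈ (Icc D Ts).filter (fun d => E ∣ d), (E : ℝ) * (1 / (d : ℝ)) := by
          rw [mul_sum]
          refine sum_congr rfl fun d _ => ?_
          ring
      _ ≤ _ := mul_le_mul_of_nonneg_left h3 (by positivity)
  refine (sum_le_sum h2).trans ?_
  rw [sum_const, nsmul_eq_mul]

/-- the multiples `d` of `E` belonging to one quotient `v` -/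
lemma sumWB' (D Ts Y t' v E : ℕ) (_hD : 1 ≤ D) (hY : 2 ≤ Y) (ht : 1 ≤ t') (hv : 1 ≤ v)
    (hE : 1 ≤ E) :
    ∑ d ∈ (Icc D Ts).filter (fun d => E ∣ d ∧ t' ≤ v * d ∧ Y * (v * d - t') < d),
      ((E : ℝ) * (1 / (d : ℝ))) ≤ 2 / Y * (1 / (v : ℝ)) + E * v / t' := by
  have htR : (0 : ℝ) < t' := by exact_mod_cast ht
  have hvR : (0 : ℝ) < v := by exact_mod_cast hv
  have hER : (0 : ℝ) < E := by exact_mod_cast hE
  have hv1 : (1 : ℝ) ≤ v := by exact_mod_cast hv
  have hYR : (2 : ℝ) ≤ Y := by exact_mod_cast hY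
  have hYv : (2 : ℝ) ≤ Y * v := by nlinarith
  set A := (Icc D Ts).filter (fun d => E ∣ d ∧ t' ≤ v * d ∧ Y * (v * d - t') < d) with hA
  have hmem : ∀ d ∈ A, (t' : ℝ) ≤ v * d ∧ (d : ℝ) * (Y * v - 1) < Y * t' ∧ (0 : ℝ) < d := by
    intro d hd
    rw [hA, mem_filter, mem_Icc] at hd
    obtain ⟨⟨h1, _⟩, _, h2, h3⟩ := hd
    have h2' : (t' : ℝ) ≤ v * d := by exact_mod_cast h2
    refine ⟨h2', ?_, ?_⟩
    · have h3' : ((Y * (v * d - t') : ℕ) : ℝ) < d := by exact_mod_cast h3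
      rw [Nat.cast_mul, Nat.cast_sub h2] at h3'
      push_cast at h3'
      nlinarith
    · have : 1 ≤ d := by omega
      exact_mod_cast this
  have hterm : ∀ d ∈ A, ((E : ℝ) * (1 / (d : ℝ))) ≤ E * v / t' := by
    intro d hd
    obtain ⟨h1, _, h3⟩ := hmem d hd
    rw [mul_one_div, div_le_div_iff₀ h3 htR]
    nlinarith
  set a : ℝ := t' / v with ha
  set b : ℝ := Y * t' / (Y * v - 1) with hb
  have hab : a ≤ b := by
    rw [ha, hb, div_le_div_iff₀ hvR (by linarith)]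
    nlinarith
  have ha0 : 0 ≤ a := by positivity
  have hb0 : 0 ≤ b := ha0.trans hab
  have hbE : 0 ≤ b / E := by positivity
  have hc1 : A.card ≤ (Ico ⌈a / E⌉₊ ⌈b / E⌉₊).card := by
    apply Finset.card_le_card_of_injOn (fun d => d / E)
    · intro d hd
      obtain ⟨h1, h2, h3⟩ := hmem d hd
      have hd' : d ∈ A := hd
      rw [hA, mem_filter] at hd'
      obtain ⟨_, ⟨u, rfl⟩, _, _⟩ := hd'
      simp only [Nat.mul_div_cancel_left _ (show 0 < E by omega)]
      push_cast at h1 h2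
      rw [coe_Ico, Set.mem_Ico, Nat.ceil_le, Nat.lt_ceil]
      constructor
      · rw [ha, div_div, div_le_iff₀ (by positivity)]
        linarith
      · rw [hb, div_div, lt_div_iff₀ (mul_pos (by linarith) hER)]
        linarith
    · intro s hs t ht hst
      have hs' : s ∈ A := hs
      have ht' : t ∈ A := ht
      rw [hA, mem_filter] at hs' ht'
      obtain ⟨u, rfl⟩ := hs'.2.1
      obtain ⟨v, rfl⟩ := ht'.2.1
      simp only [Nat.mul_div_cancel_left _ (show 0 < E by omega)] at hst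
      rw [hst]
  have hcard : (A.card : ℝ) ≤ (b - a) / E + 1 := by
    rw [Nat.card_Ico] at hc1
    have h2 : (A.card : ℝ) ≤ ((⌈b / E⌉₊ - ⌈a / E⌉₊ : ℕ) : ℝ) := by exact_mod_cast hc1
    rw [Nat.cast_sub (Nat.ceil_mono (div_le_div_of_nonneg_right hab hER.le))] at h2
    have h3 := Nat.ceil_lt_add_one hbE
    have h4 := Nat.le_ceil (a / E)
    rw [sub_div]
    linarith
  have hba : b - a = t' / (v * (Y * v - 1)) := by
    rw [ha, hb]
    have : (Y * v - 1 : ℝ) ≠ 0 := by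
      have : (0 : ℝ) < Y * v - 1 := by linarith
      exact this.ne'
    field_simp
    ring
  calc ∑ d ∈ A, ((E : ℝ) * (1 / (d : ℝ))) ≤ ∑ _d ∈ A, ((E : ℝ) * v / t') := sum_le_sum hterm
    _ = A.card * ((E : ℝ) * v / t') := by rw [sum_const, nsmul_eq_mul]
    _ ≤ (t' / (v * (Y * v - 1)) / E + 1) * ((E : ℝ) * v / t') := by
        rw [← hba]; exact mul_le_mul_of_nonneg_right hcard (by positivity)
    _ = 1 / (Y * v - 1) + E * v / t' := by
        have h : (0 : ℝ) < Y * v - 1 := by linarith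
        have h' : (Y * v - 1 : ℝ) ≠ 0 := h.ne'
        field_simp
    _ ≤ 2 / Y * (1 / (v : ℝ)) + E * v / t' := by
        have h : (0 : ℝ) < Y * v - 1 := by linarith
        have : 1 / (Y * v - 1 : ℝ) ≤ 2 / Y * (1 / (v : ℝ)) := by
          rw [div_mul_div_comm, mul_one, div_le_div_iff₀ h (by positivity)]
          linarith
        linarith

/-- **WB'** -/
theorem wb' : Pool.Agent.L7h79.GR.S_WB' := by
  intro D T0 Ts Y t' K Z hD hY hT0 htt hK hKZ hTs
  have ht' : 1 ≤ t' := hT0.trans htt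
  have hYR : (2 : ℝ) ≤ Y := by exact_mod_cast hY
  have hYp : (0 : ℝ) < Y := by linarith
  have htR : (0 : ℝ) < t' := by exact_mod_cast ht'
  set V := Ts / D with hV
  -- from `t` to the quotient
  have h1 : ∀ d ∈ Icc D Ts,
      ∑ _t ∈ (Icc 1 Ts).filter (fun t => d ∣ t ∧ t' ≤ t ∧ Y * (t - t') < d),
        ((Nat.gcd K d : ℕ) : ℝ) / (d : ℝ) ≤
        ((Nat.gcd K d : ℕ) : ℝ) *
          (((Icc 1 V).filter (fun v => t' ≤ v * d ∧ Y * (v * d - t') < d)).card *
            (1 / (d : ℝ))) := by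
    intro d hd
    rw [mem_Icc] at hd
    rw [sum_const, nsmul_eq_mul]
    have hcc : ((Icc 1 Ts).filter (fun t => d ∣ t ∧ t' ≤ t ∧ Y * (t - t') < d)).card ≤
        ((Icc 1 V).filter (fun v => t' ≤ v * d ∧ Y * (v * d - t') < d)).card := by
      have hd0 : 0 < d := by omega
      apply Finset.card_le_card_of_injOn (fun t => t / d)
      · intro t ht
        simp only [coe_filter, Set.mem_ofPred_eq, mem_Icc] at ht
        obtain ⟨⟨g1, g2⟩, ⟨u, rfl⟩, g3, g4⟩ := ht
        simp only [coe_filter, Set.mem_ofPred_eq, mem_Icc, Nat.mul_div_cancel_left _ hd0]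
        have e : u * d = d * u := mul_comm _ _
        rw [e]
        refine ⟨⟨?_, ?_⟩, g3, g4⟩
        · rcases Nat.eq_zero_or_pos u with h | h
          · subst h; simp at g1
          · exact h
        · rw [hV, Nat.le_div_iff_mul_le (by omega)]
          calc u * D ≤ u * d := Nat.mul_le_mul_left _ hd.1
            _ = d * u := mul_comm _ _
            _ ≤ Ts := g2
      · intro s hs t ht hst
        simp only [coe_filter, Set.mem_ofPred_eq, mem_Icc] at hs ht
        obtain ⟨u, rfl⟩ := hs.2.1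
        obtain ⟨v, rfl⟩ := ht.2.1
        simp only [Nat.mul_div_cancel_left _ hd0] at hst
        rw [hst]
    have hcc' : (((Icc 1 Ts).filter (fun t => d ∣ t ∧ t' ≤ t ∧ Y * (t - t') < d)).card : ℝ) ≤
        (((Icc 1 V).filter (fun v => t' ≤ v * d ∧ Y * (v * d - t') < d)).card : ℝ) := by
      exact_mod_cast hcc
    refine (mul_le_mul_of_nonneg_right hcc' (by positivity)).trans (le_of_eq ?_)
    ring
  refine (sum_le_sum h1).trans ?_
  refine (sum_gcd hK (Icc D Ts) (fun d =>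
    (((Icc 1 V).filter (fun v => t' ≤ v * d ∧ Y * (v * d - t') < d)).card : ℝ) *
      (1 / (d : ℝ))) (fun d => by positivity)).trans ?_
  have hlog := Wt.log_nonneg' Ts
  have hV2 : Z * (V ^ 2 * Y) ≤ t' := by
    have h6 : V * D ≤ Ts := Nat.div_mul_le_self Ts D
    have h7 : (V * D) ^ 2 ≤ Ts ^ 2 := Nat.pow_le_pow_left h6 2
    have h8 : Z * (V ^ 2 * Y) * D ^ 2 ≤ T0 * D ^ 2 := by
      calc Z * (V ^ 2 * Y) * D ^ 2 = Z * ((V * D) ^ 2 * Y) := by ring
        _ ≤ Z * (Ts ^ 2 * Y) := Nat.mul_le_mul_left _ (Nat.mul_le_mul_right _ h7)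
        _ ≤ T0 * D ^ 2 := hTs
    have h9 : Z * (V ^ 2 * Y) ≤ T0 := Nat.le_of_mul_le_mul_right h8 (by positivity)
    exact h9.trans htt
  have h2 : ∀ E ∈ K.divisors, ∑ d ∈ (Icc D Ts).filter (fun d => E ∣ d),
      (E : ℝ) * ((((Icc 1 V).filter (fun v => t' ≤ v * d ∧ Y * (v * d - t') < d)).card : ℝ) *
        (1 / (d : ℝ))) ≤ 3 * (1 + Real.log Ts) / Y := by
    intro E hE
    have hE1 : 1 ≤ E := Nat.pos_of_mem_divisors hE
    have hEZ : E ≤ Z := (Nat.divisor_le hE).trans hKZ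
    have hER : (0 : ℝ) < E := by exact_mod_cast hE1
    have e1 : ∑ d ∈ (Icc D Ts).filter (fun d => E ∣ d),
        (E : ℝ) * ((((Icc 1 V).filter (fun v => t' ≤ v * d ∧ Y * (v * d - t') < d)).card : ℝ) *
          (1 / (d : ℝ))) =
        ∑ v ∈ Icc 1 V, ∑ d ∈ (Icc D Ts).filter
          (fun d => E ∣ d ∧ t' ≤ v * d ∧ Y * (v * d - t') < d), ((E : ℝ) * (1 / (d : ℝ))) := by
      have e2 : ∀ d ∈ Icc D Ts, (if E ∣ d then (E : ℝ) *
          ((((Icc 1 V).filter (fun v => t' ≤ v * d ∧ Y * (v * d - t') < d)).card : ℝ) *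
            (1 / (d : ℝ))) else 0) =
          ∑ v ∈ Icc 1 V, if E ∣ d ∧ t' ≤ v * d ∧ Y * (v * d - t') < d then
            ((E : ℝ) * (1 / (d : ℝ))) else 0 := by
        intro d _
        by_cases h : E ∣ d
        · simp only [h, if_true, true_and]
          rw [← sum_filter, sum_const, nsmul_eq_mul]
          ring
        · simp [h]
      rw [sum_filter, sum_congr rfl e2, sum_comm]
      refine sum_congr rfl fun v _ => ?_
      rw [sum_filter]
    rw [e1]
    have h3 : ∀ v ∈ Icc 1 V,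
        ∑ d ∈ (Icc D Ts).filter (fun d => E ∣ d ∧ t' ≤ v * d ∧ Y * (v * d - t') < d),
          ((E : ℝ) * (1 / (d : ℝ))) ≤ 2 / Y * (1 / (v : ℝ)) + E * V / t' := by
      intro v hv
      rw [mem_Icc] at hv
      refine (sumWB' D Ts Y t' v E hD hY ht' hv.1 hE1).trans ?_
      have : (v : ℝ) ≤ V := by exact_mod_cast hv.2
      have h4 : (E : ℝ) * v / t' ≤ E * V / t' :=
        div_le_div_of_nonneg_right (mul_le_mul_of_nonneg_left this hER.le) htR.le
      linarith
    refine (sum_le_sum h3).trans ?_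
    rw [sum_add_distrib, ← mul_sum, sum_const, nsmul_eq_mul, Nat.card_Icc, Nat.add_sub_cancel]
    have h6 : (V : ℝ) * (E * V / t') ≤ 1 / Y := by
      have h5 : E * (V ^ 2 * Y) ≤ t' := (Nat.mul_le_mul_right _ hEZ).trans hV2
      have h5' : (E : ℝ) * ((V : ℝ) ^ 2 * Y) ≤ t' := by exact_mod_cast h5
      rw [mul_div_assoc', div_le_div_iff₀ htR (by linarith)]
      nlinarith
    have hVle : Real.log V ≤ Real.log Ts := by
      rcases Nat.eq_zero_or_pos V with h | h
      · rw [h]; simp; exact Wt.log_nonneg' Ts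
      · apply Real.log_le_log (by exact_mod_cast h)
        have : V ≤ Ts := Nat.div_le_self _ _
        exact_mod_cast this
    have hH := Wt.harm V
    calc 2 / (Y : ℝ) * ∑ v ∈ Icc 1 V, (1 / (v : ℝ)) + V * (E * V / t')
        ≤ 2 / (Y : ℝ) * (1 + Real.log Ts) + 1 / Y := by
          refine add_le_add (mul_le_mul_of_nonneg_left (by linarith) (by positivity)) h6
      _ = (2 * (1 + Real.log Ts) + 1) / Y := by ring
      _ ≤ 3 * (1 + Real.log Ts) / Y := by
          apply div_le_div_of_nonneg_right _ hYp.le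
          linarith
  refine (sum_le_sum h2).trans ?_
  rw [sum_const, nsmul_eq_mul]

end Pool.Agent.L7h32.GR
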